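import Pool.Agent.U148.HG.Ex3

/-!
# The Hopf order property of classical and nonclassical associated orders

We disprove the equivalence: `𝔄_{K[G]}` is a Hopf order if and only if `𝔄_λ` is a Hopf order.
Let `K = 𝔽₂(t)`, `L = 𝔽₄(u)` with `t = u³`, and `𝔅 = 𝔒_L = 𝔽₄[u]`.  Then `L/K` is Galois with group
`S₃`, generated by `σ : u ↦ ω u` and the Frobenius `τ` of the coefficients, and it is tame, so
`𝔄_{K[G]} = 𝔒_K[G]`.  Let `a = ω u⁻¹`.  The element `h = ∑ g(a) λ(g τ g⁻¹)` of `H_λ` lies in `𝔄_λ`.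
Let `w = ω u⁻²`; then `Tr(w 𝔒_L) ⊆ 𝔒_K`, so the functional `φ(x) = Tr(w (x · u))` maps `𝔄_λ` to
`𝔒_K`.  If `𝔄_λ` were a Hopf order, `(φ ⊗ φ)(Δ(h))` would lie in `𝔒_K`, but it equals
`Tr(a F²) = t⁻¹` with `F = ∑ g(w) τ⁻¹(g(u)) = u⁻¹`.

Definitions (in `Pool/Agent/U148/HG/`): `assocC R` (in `Hopf.lean`) is the associated order of the
subring `R` of `L` in `K[G]`, `assocN R` (in `Pub.lean`) the one in `H_λ`, `IsOrder` (in
`Order.lean`) is the notion of an order, `HopfStable` (in `Hopf.lean`) the conditions on `Δ`, `ε`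
and `S`, and `integers F` (in `Ex3.lean`) is the ring of integers of an extension `F` of `𝔽₂(t)`.
-/

set_option autoImplicit false

namespace Pool.Agent.Results.MP_eed25b_nt.HopfOrderCounterexample

open Pool.Agent.U148.HG Pool.Agent.U148.HG.Ex

/-- The subring `A` of `K[G]` is a Hopf order over `O`. -/
structure IsHopfOrderC {K L : Type} [Field K] [Field L] [Algebra K L] (O : Subring K)
    (A : Subring (MonoidAlgebra K (L ≃ₐ[K] L))) : Prop where
  isOrder : IsOrder O A
  stable : HopfStable (O : Set K) (A : Set (MonoidAlgebra K (L ≃ₐ[K] L)))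

/-- The subring `A` of `H_λ` is a Hopf order over `O`. -/
structure IsHopfOrderN {K L : Type} [Field K] [Field L] [Algebra K L] (O : Subring K)
    (A : Subring (HH K L)) : Prop where
  isOrder : IsOrder O A
  stable : HopfStable (algebraMap K L '' (O : Set K)) (HH.toMA '' (A : Set (HH K L)))

/-- The ring of integers `𝔒_K` of `K = 𝔽₂(t)`. -/
noncomputable def OK : Subring (RatFunc (ZMod 2)) := integers (RatFunc (ZMod 2))

theorem result : ∃ (L : Type) (_ : Field L) (_ : Algebra (RatFunc (ZMod 2)) L)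
    (_ : FiniteDimensional (RatFunc (ZMod 2)) L),
    IsGalois (RatFunc (ZMod 2)) L ∧ Module.finrank (RatFunc (ZMod 2)) L = 6 ∧
    (∃ g h : L ≃ₐ[RatFunc (ZMod 2)] L, g * h ≠ h * g) ∧
    IsHopfOrderC OK (assocC (K := RatFunc (ZMod 2)) (integers L)) ∧
    IsOrder OK (assocN (K := RatFunc (ZMod 2)) (integers L)) ∧
    ¬ IsHopfOrderN OK (assocN (K := RatFunc (ZMod 2)) (integers L)) := by
  have d1 : IsDedekindDomain (integers KK) := dedeF KK
  have d2 : IsFractionRing (integers KK) KK := fracF KK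
  have hL : integers LL = (integralClosure (integers KK) LL).toSubring := intL KK LL
  have htr : Algebra.trace KK LL (ee om) = 1 := dat.tr
  have hw : ee om ∈ integralClosure (integers KK) LL := by
    have h := dat.wR
    rw [hL] at h
    exact h
  refine ⟨LL, inferInstance, inferInstance, inferInstance, inferInstance, ?_,
    ⟨sg, tg, dat.noncomm⟩, ⟨?_, ?_⟩, ?_, fun h => dat.not_hopf _ h.stable⟩
  · rw [← IsGalois.card_aut_eq_finrank, Nat.card_eq_fintype_card, card_six]
  · rw [hL]
    exact assocC_isOrder (integers KK) hw htr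
  · rw [hL]
    exact assocC_hopf (integers KK) hw htr
  · rw [hL]
    exact assoc_isOrder (integers KK)

end Pool.Agent.Results.MP_eed25b_nt.HopfOrderCounterexample
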